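import Pool.Agent.H839.PZ.One

/-!
# BSD for one elliptic curve over a function field and finitely many graph hypersurfaces

Let `k` be a finite field of characteristic `p`, `X` a curve over `k`, `E` **one** elliptic curve over
`K = k(X)`, and `S` a smooth projective surface over `𝔽_p` with a map to `X` whose generic fibre is `E` (the
elliptic surface, considered as a scheme over `𝔽_p`). Let `ℓ ≠ p` be a prime number. By theorems of Artin,
Tate and Milne the rank of `E(K)` is equal to the order of `L(E/K, T)` at `q^{-1}` if and only if the Galois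
invariant classes in `H^2(S̄, ℚ_ℓ(1))` are `ℚ_ℓ`-linear combinations of the classes of divisors
(`artin_tate`).

For a smooth projective scheme `Y` over `𝔽_p` let `A^m(Y)` be the `ℚ_ℓ`-subspace of
`H^{2m}(Ȳ, ℚ_ℓ(m))` generated by the classes of the cycles of codimension `m` on `Y`, and `B^m(Y)` the sum
of `A^m(Y)` and of the images `c_*(τ)` of the Galois invariant classes `τ` in `H^2(S̄, ℚ_ℓ(1))`, for the
cycles `c` of codimension `m + 1` on `S × Y`, `c_*(τ) = pr_{Y*}(c · pr_S^* τ)`. Both are additive functors
of the Chow motive of `Y`, and `A^m ⊆ B^m ⊆` the Galois invariants; they are equal if and only if the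
classes `c_*(τ)` are algebraic (`Stable`). For a separated scheme `Z` of finite type over `𝔽_p` let `W(Z)`
be its weight complex (Gillet, Soulé, Bondarko; `W(Z) = h(Z)` for smooth projective `Z`), and put
`A^{m,i}(Z) = H^i(A^m(W(Z)))`, `B^{m,i}(Z) = H^i(B^m(W(Z)))`. `BijAll C Z` says that the maps
`A^{m,i}(Z) → B^{m,i}(Z)` are isomorphisms for all `m` and `i`. (These data are the ones of the library
result `FinitelyManyCubics` of this problem, where the same is done with cubic hypersurfaces
`T(x, y, z) = 1`.)

For a finite graph `G` let `Y_G` be the complement of its graph hypersurface over `𝔽_p`, that is the open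
subscheme of the affine space over `𝔽_p` of the edge weights where the Kirchhoff polynomial (the weighted
number of the spanning trees, the determinant of the reduced Laplace matrix) is not zero. The numbers of
the points of these schemes over finite fields are the subject of the question of Kontsevich which was
answered by Belkale and Brosnan.

**Theorem.** For each `S` there is a finite list `L` of finite simple graphs of maximal degree at most
three, which depends only on `S` (not on `ℓ`), such that the question has a positive answer for `E`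
(`rk E(K) = ord L(E/K, T)`) if and only if the maps `A^{m,i}(Y_G) → B^{m,i}(Y_G)` are isomorphisms for all
`m` and `i` and the finitely many graphs `G` in `L`. If it has, they are isomorphisms for all finite graphs
of maximal degree at most three.
-/

set_option autoImplicit false

open CategoryTheory CategoryTheory.Limits AlgebraicGeometry Pool.Agent.Y116.UV Pool.Agent.Z125.UN
  Pool.Agent.Q193.LT Pool.Agent.Q49.WU Pool.Agent.Q68.OV Pool.Agent.H839.PZ

universe w u

namespace Pool.Agent.Results.MP_ff7320_nt.FinitelyManyGraphs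

/-- An elliptic curve `E` over `K = k(X)`, its elliptic surface `S`, and the cohomology of the smooth
projective schemes `Y` over `𝔽_p`. -/
structure SurfaceData (p : ℕ) [Fact p.Prime] (ℓ : ℕ) [Fact ℓ.Prime] (S : Sch (ZMod p)) where
  /-- `H^{2m}(Ȳ, ℚ_ℓ(m))` -/
  H : ℤ → Sch (ZMod p) → ModuleCat.{w} ℚ_[ℓ]
  /-- the span of the classes of the algebraic cycles of codimension `m` on `Y` -/
  alg : ∀ (m : ℤ) (Y : Sch (ZMod p)), Submodule ℚ_[ℓ] (H m Y)
  /-- the algebraic cycles of codimension `m + 1` on `S × Y` -/
  Cyc : ℤ → Sch (ZMod p) → Type u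
  /-- the operation `τ ↦ c_*(τ)` of the cycle `c` -/
  act : ∀ {m : ℤ} {Y : Sch (ZMod p)}, Cyc m Y → H 1 S →ₗ[ℚ_[ℓ]] H m Y
  /-- the diagonal of `S × S` -/
  diag : Cyc 1 S
  /-- the Galois invariant classes in `H^2(S̄, ℚ_ℓ(1))` -/
  tate : Submodule ℚ_[ℓ] (H 1 S)
  /-- the rank of `E(K)` -/
  rank : ℕ
  /-- the order of `L(E/K, T)` at `T = q^{-1}` -/
  order : ℕ

section

variable {p : ℕ} [Fact p.Prime] {ℓ : ℕ} [Fact ℓ.Prime] {S : Sch (ZMod p)}

/-- Known facts: correspondences preserve algebraic classes, the diagonal operates as the identity, and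
the theorem of Artin, Tate and Milne. -/
structure IsSurface (D : SurfaceData.{w, u} p ℓ S) : Prop where
  act_mem : ∀ (m : ℤ) (Y : Sch (ZMod p)), SmoothProj Y → ∀ (c : D.Cyc m Y) (x : D.H 1 S),
    x ∈ D.alg 1 S → D.act c x ∈ D.alg m Y
  act_diag : ∀ x, D.act D.diag x = x
  artin_tate : D.rank = D.order ↔ D.tate ≤ D.alg 1 S

/-- The statement of Q1 for the curve `E`. -/
def BSD (D : SurfaceData.{w, u} p ℓ S) : Prop := D.rank = D.order

/-- The images in `Y` of the Galois invariant classes of `S` are algebraic. -/
def Stable (D : SurfaceData.{w, u} p ℓ S) (m : ℤ) (Y : Sch (ZMod p)) : Prop :=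
  ∀ c : D.Cyc m Y, ∀ x ∈ D.tate, D.act c x ∈ D.alg m Y

end

/-- **BSD for one elliptic curve over a function field and finitely many graph hypersurfaces.** See the
explanations above; `zero` is the case of dimension zero (all classes of degree zero are algebraic). -/
theorem result {p : ℕ} [Fact p.Prime] {S : Sch (ZMod p)} (hS : SmoothProj S) :
    ∃ L : List Gph, ∀ (ℓ : ℕ) [Fact ℓ.Prime] (D : SurfaceData.{w, u} p ℓ S)
        (C : PairData.{w} (ZMod p) (ℤ × ℤ) ℚ_[ℓ]), ℓ ≠ p → IsSurface D → IsWeightPair C →
        WeightGen C → (∀ Y, SmoothProj Y → ∀ m, (BijAt C Prod.fst m Y ↔ Stable D m Y)) →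
        (zero : ∀ Y : Sch (ZMod p), SmoothProj Y → topologicalKrullDim Y.left ≤ (0 : ℕ) →
          BijAll C Y) →
        (BSD D ↔ ∀ g ∈ L, BijAll C (g.co (ZMod p))) ∧
        (BSD D → ∀ g : Gph, BijAll C (g.co (ZMod p))) := by
  obtain ⟨N, G, h⟩ := reach_kirch.{w, 0, u} hS 1
  refine ⟨G, fun ℓ _ D C _ hD hC hg bij zero => ?_⟩
  let R : Reach.{w, 0, u} (ZMod p) ℚ_[ℓ] S 1 :=
    { H := D.H, A := D.alg, Corr := D.Cyc, act := D.act, one := D.diag, J := {x | x ∈ D.tate} }
  have hR : IsReach R := ⟨hD.act_mem, hD.act_diag⟩
  have hF : Frac (ZMod p) := frac_of_surj ZMod.intCast_surjective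
  have hB : BSD D ↔ Holds R := hD.artin_tate
  obtain ⟨_, h2, h3⟩ := h ℚ_[ℓ] R C hR hC hg bij (point_of_zero hg zero)
  exact ⟨hB.trans (h2 hF), fun hb => (h3 (hB.mp hb)).2⟩

end Pool.Agent.Results.MP_ff7320_nt.FinitelyManyGraphs
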