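import Pool.Agent.H467.CT.Two
import Pool.Agent.H467.CT.Intg
import Pool.Agent.H467.CT.Asc
import Pool.Agent.H467.CT.Cntc
import Pool.Agent.H467.CT.Res
import Pool.Agent.H467.CT.Trc
import Pool.Agent.H467.CT.Fin

/-!
# Almost all polynomial twists in a coset, in characteristic two

Let `k` be any finite field of characteristic two, `K = k(t)`, and let `b` be a polynomial with exactly
one or exactly two monic irreducible factors of odd multiplicity. For `a ∈ k[t]` let
`E_a : y ^ 2 + x y = x ^ 3 + a x ^ 2 + b`. This is an elliptic curve over `K`, not isotrivial, with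
`j = 1 / b`; it is the twist of `E_0` by the quadratic extension `z ^ 2 + z = a` of `K`, which is
unramified outside `t = ∞`, and `E_a` is isomorphic to `E_{a + g ^ 2 + g}` for all `g`.

Theorem. (1) If `a` is not of the form `z ^ 2 + z` modulo `Q` for any prime `Q` dividing `b`, and `a` is
not congruent, modulo the polynomials `g ^ 2 + g`, to a polynomial of degree at most `deg b`, then
`E_a(K)` is finite, of odd order, and the 2-primary part of the Tate-Shafarevich group of `E_a` over `K`
is trivial. (2) The proportion of the `a` of (1) among the polynomials of degree at most `n` tends to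
`2 ^ (- ω(b))`, where `ω(b)` is the number of monic irreducible factors of `b`; the polynomials which
violate the second condition have density zero (and are finitely many modulo the `g ^ 2 + g`). (3) If
`b` has only one monic irreducible factor `P` of odd multiplicity then `E_a(K) / 2 E_a(K)` has at most
two elements for all polynomials `a` which satisfy the second condition of (1) and the first condition
of (1) for all primes `Q ≠ P`. So if `b` is irreducible then all but finitely many of the classes of
polynomials `a` modulo the `g ^ 2 + g` give curves of rank at most one, and for half of the classes the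
rank is zero.

By the known theorem of Artin, Tate, Milne, Kato and Trihan (for the characteristic `p = 2` itself),
the curves of (1) satisfy the conjecture of Birch and Swinnerton-Dyer, so `L(1 / q, E_a) ≠ 0`.

The proof: multiplication by two is the product of the Frobenius `F : E → E ^ (2)` and the
Verschiebung `V`. The descent is done with cocycles of `Gal(Sep K / K)`: a point `S` of `E ^ (2)` with
`2 S = F(R)` gives a class `α` in `K / {z ^ 2 + z}` and, if it is trivial, a class `d` in `K^* / K^*2`
(the abscissa of `S`). The local conditions at all places, in particular at `t = ∞`, where `a` has a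
large pole, leave only `α = 0` and `α = a` and only `d` in the group generated by the primes of
odd multiplicity. At these primes `α` is trivial, so the first condition on `a` gives `α = 0`. Then
`d` is determined with the residue theorem for the differentials `a d P / P`.

Project CT: helper467, with parts by helpers 548, 685, 643, 161, 168, 289 and 155; see
`departures/helper467.md`.
-/

set_option autoImplicit false
set_option linter.all false

namespace Pool.Agent.Results.MP_ff7320_nt.PolynomialTwistsCharTwo

open Polynomial Filter Pool.Agent.TH115.GD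
open scoped Classical

/-- `b` has exactly one or exactly two monic irreducible factors of odd multiplicity: it is a constant
times a square times one prime or two different primes. -/
inductive OneOrTwoOdd {k : Type} [Field k] (b : k[X]) : Prop
  | one (P c : k[X]) (u : k) (hP : P.Monic ∧ Irreducible P) (hc : c ≠ 0) (hu : u ≠ 0)
      (h : b = C u * P * c ^ 2)
  | two (P Q c : k[X]) (u : k) (hP : P.Monic ∧ Irreducible P) (hQ : Q.Monic ∧ Irreducible Q)
      (hPQ : P ≠ Q) (hc : c ≠ 0) (hu : u ≠ 0) (h : b = C u * P * Q * c ^ 2)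

/-- `a` is not of the form `z ^ 2 + z` modulo `Q`. -/
def NonSplitAt {k : Type} [Field k] (Q a : k[X]) : Prop := ∀ z : k[X], ¬ Q ∣ z ^ 2 + z + a

/-- `a` is not of the form `z ^ 2 + z` modulo any prime divisor of `b`. -/
def NonSplit {k : Type} [Field k] (b a : k[X]) : Prop :=
  ∀ Q : k[X], Irreducible Q → Q ∣ b → NonSplitAt Q a

/-- All polynomials congruent to `a` modulo the polynomials `g ^ 2 + g` have degree larger than the
degree of `b`. -/
def Large {k : Type} [Field k] (b a : k[X]) : Prop :=
  ∀ g : k[X], b.natDegree < (a + g ^ 2 + g).natDegree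

/-- The curve `y ^ 2 + x y = x ^ 3 + a x ^ 2 + b` over `K = k(t)`. -/
noncomputable def curve {k : Type} [Field k] (K : Type) [Field K] [Algebra k[X] K] (a b : k[X]) :
    WeierstrassCurve K :=
  ⟨1, algebraMap k[X] K a, 0, 0, algebraMap k[X] K b⟩

/-- The group of the `K`-rational points is finite, of odd order, and the 2-primary part of the
Tate-Shafarevich group is trivial. -/
def RankZero (k : Type) {K : Type} [Field k] [Field K] [Algebra k[X] K] [IsFractionRing k[X] K]
    (E : WeierstrassCurve K) : Prop :=
  Finite (Pt E K) ∧ Odd (Nat.card (Pt E K)) ∧ ShaTwo k E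

/-- The number of monic irreducible divisors of `b`. -/
noncomputable def omega {k : Type} [Field k] (b : k[X]) : ℕ :=
  {Q : k[X] | Q.Monic ∧ Irreducible Q ∧ Q ∣ b}.ncard

/-! ### Comparison with the helper files -/

section aux

open Pool.Agent.H467.CT

theorem odd_card {G : Type} [AddCommGroup G] (hf : Finite G) (h : ∀ P : G, P + P = 0 → P = 0) :
    Odd (Nat.card G) := by
  rw [← Nat.not_even_iff_odd]
  intro he
  haveI := hf
  letI : Fintype G := Fintype.ofFinite G
  rw [Nat.card_eq_fintype_card] at he
  haveI : Fact (Nat.Prime 2) := ⟨Nat.prime_two⟩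
  obtain ⟨x, hx⟩ := exists_prime_addOrderOf_dvd_card 2 he.two_dvd
  have h1 : x + x = 0 := by
    rw [← two_nsmul, ← hx]
    exact addOrderOf_nsmul_eq_zero x
  rw [h x h1, addOrderOf_zero] at hx
  exact absurd hx (by norm_num)

theorem rank_zero {k : Type} [Field k] [Finite k] [CharP k 2] (K : Type) [Field K]
    [Algebra k[X] K] [IsFractionRing k[X] K] {a b : k[X]} (hb : b ≠ 0)
    (h1 : ∀ P : Pt (curve K a b) K, ∃ Q, Q + Q = P)
    (h2 : ∀ P : Pt (curve K a b) K, P + P = 0 → P = 0) (h3 : ShaTwo k (curve K a b)) :
    RankZero k (curve K a b) := by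
  haveI : CharP K 2 := charK k
  have hf : Finite (Pt (curve K a b) K) :=
    Pool.Agent.H467.CT.Fin.fin k K _ _ _ (std_bc (Ω := K) (a := algebraMap k[X] K a)
      (b := algebraMap k[X] K b) (amap_ne K hb)) h1 h2
  exact ⟨hf, odd_card hf h2, h3⟩

end aux

/-- **Theorem.** Let `k` be a finite field of characteristic two, `K = k(t)`, and `b` a polynomial
with one or two monic irreducible factors of odd multiplicity. -/
theorem result (k : Type) [Field k] [Finite k] [CharP k 2] (K : Type) [Field K] [Algebra k[X] K]
    [IsFractionRing k[X] K] (b : k[X]) (hb : OneOrTwoOdd b) :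
    -- (1)
    (∀ a : k[X], NonSplit b a → Large b a → RankZero k (curve K a b)) ∧
    -- (2)
    ((∀ n : ℕ, {a : k[X] | a.natDegree ≤ n}.ncard = Nat.card k ^ (n + 1)) ∧
      Tendsto (fun n : ℕ => ({a : k[X] | a.natDegree ≤ n ∧ NonSplit b a ∧ Large b a}.ncard : ℝ) /
        (Nat.card k : ℝ) ^ (n + 1)) atTop (nhds ((1 / 2 : ℝ) ^ omega b)) ∧
      Tendsto (fun n : ℕ => ({a : k[X] | a.natDegree ≤ n ∧ ¬ Large b a}.ncard : ℝ) /
        (Nat.card k : ℝ) ^ (n + 1)) atTop (nhds 0)) ∧
    -- (3)
    (∀ (P c : k[X]) (u : k), P.Monic → Irreducible P → c ≠ 0 → u ≠ 0 → b = C u * P * c ^ 2 →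
      ∀ a : k[X], (∀ Q : k[X], Irreducible Q → ¬ P ∣ Q → Q ∣ b → NonSplitAt Q a) → Large b a →
      ∀ R₁ R₂ : Pt (curve K a b) K,
        (∃ Q, Q + Q = R₁) ∨ (∃ Q, Q + Q = R₂) ∨ (∃ Q, Q + Q = R₁ + R₂)) := by
  haveI : CharP K 2 := Pool.Agent.H467.CT.charK k
  have hb0 : b ≠ 0 := by
    rcases hb with ⟨P, c, u, hP, hc, hu, h⟩ | ⟨P, Q, c, u, hP, hQ, hPQ, hc, hu, h⟩
    · rw [h]
      exact mul_ne_zero (mul_ne_zero (C_ne_zero.2 hu) hP.1.ne_zero) (pow_ne_zero 2 hc)
    · rw [h]
      exact mul_ne_zero (mul_ne_zero (mul_ne_zero (C_ne_zero.2 hu) hP.1.ne_zero) hQ.1.ne_zero)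
        (pow_ne_zero 2 hc)
  have hb' : Pool.Agent.H467.CT.Odd12 b := by
    rcases hb with ⟨P, c, u, hP, hc, hu, h⟩ | ⟨P, Q, c, u, hP, hQ, hPQ, hc, hu, h⟩
    · exact .one P c u hP.1 hP.2 hc hu h
    · exact .two P Q c u hP.1 hP.2 hQ.1 hQ.2 hPQ hc hu h
  refine ⟨fun a hns hbig => ?_, Pool.Agent.H467.CT.Cntc.cntc k b hb0, ?_⟩
  · obtain ⟨h1, h2, h3⟩ := Pool.Agent.H467.CT.two_main (K := K) Pool.Agent.H467.CT.Asc.asc
      Pool.Agent.H467.CT.Intg.intg Pool.Agent.H467.CT.Infg.infg Pool.Agent.H467.CT.Infg.sqg
      Pool.Agent.H467.CT.Res.res Pool.Agent.H467.CT.Trc.trc hb' hbig hns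
    exact rank_zero K hb0 h1 h2 h3
  · intro P c u hP hP' hc hu hbe a hns hbig R₁ R₂
    exact Pool.Agent.H467.CT.rank_one (K := K) Pool.Agent.H467.CT.Asc.asc
      Pool.Agent.H467.CT.Intg.intg Pool.Agent.H467.CT.Infg.infg Pool.Agent.H467.CT.Infg.sqg
      hP hP' hc hu hbe hbig hns R₁ R₂

end Pool.Agent.Results.MP_ff7320_nt.PolynomialTwistsCharTwo
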