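import Pool.Agent.H467.CT.Cnt2

/-!
# Twists of an arbitrary elliptic curve over `F_q(t)`, `q` even

Let `k` be any finite field of characteristic two, `K = k(t)`. Every elliptic curve over `K` with
`j ≠ 0` has the form `E_a : y ^ 2 + x y = x ^ 3 + a x ^ 2 + b` with `b = 1 / j ≠ 0`, and the curves
`E_{a₀ + a}`, `a ∈ K`, are the twists of `E_{a₀}` by the quadratic extensions `z ^ 2 + z = a` of `K`.

Theorem. Let `b` be not constant, so that `E_{a₀}` is not isotrivial, and let `s` be any finite set of
primes (monic irreducible polynomials) such that `a₀` has no pole and `b` no zero or pole outside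
`s` and `t = ∞`. Let `V_N` be the set of the `a ∈ K` with poles of order at most `N` at the primes of
`s` and at infinity and no other poles. If `b` is not a square in `K` then for every `c < P_m`,
`m = # s`, and for all large `N`, at least `c * # V_N` elements `a` of `V_N` have the property that
`E_{a₀ + a}(K)` is finite, of odd order, and the 2-primary part of the Tate-Shafarevich group of
`E_{a₀ + a}` over `K` is trivial. Here `P_m = C(m + 1, 2) 2 ^ (-m) ∏_{i < m} (1 - 2 ^ (-i))`, a positive
number which depends only on `m`. If `b` is a square (of a nonconstant element) then `E_{a₀ + a}(K)` is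
finite for as many `a`.

By the known theorem of Artin, Tate, Milne, Kato and Trihan (for the characteristic `p = 2` itself)
these curves satisfy the conjecture of Birch and Swinnerton-Dyer (the case in which `b` is a square
because the conjecture is known to be invariant under isogenies). So for every elliptic curve over
`k(t)` which is not isotrivial and every large finite set of primes the conjecture is true for a
positive proportion of the twists which are unramified outside this set and infinity.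

The proof: multiplication by two is the product of the Frobenius `F : E → E ^ (2)` and the
Verschiebung `V`; the descent is done with cocycles of `Gal(Sep K / K)`, which gives a class `α` in
`K / {z ^ 2 + z}` and, if it is trivial, a class `d` in `K^* / K^*2`. If `a` has large poles modulo
`z ^ 2 + z` at all places of `s` and at infinity, then the local conditions say that `α` is, at each
of these places, `0` or `a`, and that `d` is a norm from the extension `z ^ 2 + z = a`. By the
residue theorem everything is expressed by the matrix of the numbers `Tr Res (a dlog Q_i)` at the places of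
`s` and at infinity. These matrices are equidistributed among the matrices over `F_2` with zero row
sums, and the 2-Selmer group is trivial for all `a` with a matrix of a certain kind, of
which there are exactly `P_m 2 ^ (m ^ 2)`.

Project CT: helper467, with parts by helpers 548, 685, 643, 161, 168, 289, 155, 955, 284 and 17; see
`departures/helper467.md`.
-/

set_option autoImplicit false
set_option linter.all false

namespace Pool.Agent.Results.MP_ff7320_nt.TwistsOfEveryCurveCharTwo

open Polynomial Filter IsDedekindDomain Pool.Agent.TH115.GD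
open scoped Classical

/-- The elements `a` of `K = k(t)` with poles of order at most `N` at the primes in `s` and at infinity
and no other poles: `a = f / (∏ Q) ^ N` with `deg f ≤ N (1 + deg ∏ Q)`. -/
def Poles {k : Type} [Field k] (K : Type) [Field K] [Algebra k[X] K] (s : Finset k[X]) (N : ℕ) :
    Set K :=
  {a | ∃ f : k[X], f.natDegree ≤ N * (1 + (∏ Q ∈ s, Q).natDegree) ∧
    a * algebraMap k[X] K (∏ Q ∈ s, Q) ^ N = algebraMap k[X] K f}

/-- The curve `y ^ 2 + x y = x ^ 3 + a x ^ 2 + b`. -/
def curve {K : Type} [Field K] (a b : K) : WeierstrassCurve K := ⟨1, a, 0, 0, b⟩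

/-- The group of the `K`-rational points is finite, of odd order, and the 2-primary part of the
Tate-Shafarevich group is trivial. -/
def RankZero (k : Type) {K : Type} [Field k] [Field K] [Algebra k[X] K] [IsFractionRing k[X] K]
    (E : WeierstrassCurve K) : Prop :=
  Finite (Pt E K) ∧ Odd (Nat.card (Pt E K)) ∧ ShaTwo k E

/-- The number `C(m + 1, 2) 2 ^ (-m) ∏_{1 ≤ i < m} (1 - 2 ^ (-i))`. -/
noncomputable def proportion (m : ℕ) : ℝ :=
  ((m + 1).choose 2 : ℝ) * (1 / 2) ^ m * ∏ i ∈ Finset.Ico 1 m, (1 - (1 / 2 : ℝ) ^ i)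

/-! ### Comparison with the helper files -/

section aux

open Pool.Agent.H467.CT

theorem odd_card {G : Type} [AddCommGroup G] (hf : Finite G) (h : ∀ P : G, P + P = 0 → P = 0) :
    Odd (Nat.card G) := by
  rw [← Nat.not_even_iff_odd]
  intro he
  haveI := hf
  letI : Fintype G := Fintype.ofFinite G
  rw [Nat.card_eq_fintype_card] at he
  haveI : Fact (Nat.Prime 2) := ⟨Nat.prime_two⟩
  obtain ⟨x, hx⟩ := exists_prime_addOrderOf_dvd_card 2 he.two_dvd
  have h1 : x + x = 0 := by
    rw [← two_nsmul, ← hx]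
    exact addOrderOf_nsmul_eq_zero x
  rw [h x h1, addOrderOf_zero] at hx
  exact absurd hx (by norm_num)

variable {k K : Type} [Field k] [Finite k] [CharP k 2] [Field K] [Algebra k[X] K]
  [IsFractionRing k[X] K]

theorem rank_zero [CharP K 2] {a b : K} (hb : b ≠ 0)
    (h1 : ∀ P : Pt (curve a b) K, ∃ Q, Q + Q = P)
    (h2 : ∀ P : Pt (curve a b) K, P + P = 0 → P = 0) (h3 : ShaTwo k (curve a b)) :
    RankZero k (curve a b) := by
  have hf : Finite (Pt (curve a b) K) :=
    Pool.Agent.H467.CT.Fin.fin k K _ _ _ (std_bc (Ω := K) (a := a) (b := b) hb) h1 h2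
  exact ⟨hf, odd_card hf h2, h3⟩

theorem mono {s : Finset k[X]} {N M : ℕ} (h : N ≤ M) {a : K} (ha : a ∈ VN K s N) :
    a ∈ VN K s M := by
  induction h with
  | refl => exact ha
  | step _ ih =>
    rename_i m _
    obtain ⟨f, hf1, hf2⟩ := ih
    refine ⟨f * ∏ Q ∈ s, Q, ?_, ?_⟩
    · refine natDegree_mul_le.trans ?_
      have e : (m + 1) * (1 + (∏ Q ∈ s, Q).natDegree) =
          m * (1 + (∏ Q ∈ s, Q).natDegree) + (1 + (∏ Q ∈ s, Q).natDegree) := by ring
      rw [e]
      omega
    · rw [pow_succ, ← mul_assoc, hf2, map_mul]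

theorem shift [CharP K 2] {s : Finset k[X]} {N : ℕ} {a₀ : K} (h : a₀ ∈ VN K s N) (R : K → Prop) :
    {a ∈ VN K s N | R (a₀ + a)}.ncard = {a ∈ VN K s N | R a}.ncard := by
  have h2 : (2 : K) = 0 := CharTwo.two_eq_zero
  have e : {a ∈ VN K s N | R a} = (fun a => a₀ + a) '' {a ∈ VN K s N | R (a₀ + a)} := by
    ext a
    constructor
    · rintro ⟨h1, h3⟩
      have e2 : a₀ + (a₀ + a) = a := by linear_combination a₀ * h2
      exact ⟨a₀ + a, ⟨Eqd.VN_add h h1, by rw [e2]; exact h3⟩, e2⟩
    · rintro ⟨c, ⟨h1, h3⟩, rfl⟩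
      exact ⟨Eqd.VN_add h h1, h3⟩
  rw [e, Set.ncard_image_of_injective _ (add_right_injective a₀)]

theorem ge_fin [CharP K 2] {s : Finset k[X]} (hs : ∀ Q ∈ s, Irreducible Q)
    (hm : ∀ Q ∈ s, Q.Monic) {b b₀ : K} {n : ℕ} (hbsq : ¬ IsSquare b₀) (hn : b = b₀ ^ 2 ^ n)
    (hbs : ∀ v : HeightOneSpectrum k[X], Out s v → v.valuation K b₀ = 1) :
    ∀ c : ℝ, c < pm s.card → ∀ᶠ N : ℕ in atTop,
      c * ((VN K s N).ncard : ℝ) ≤ ({a ∈ VN K s N | Finite (Pt (curve a b) K)}.ncard : ℝ) := by
  have hb0 : b₀ ≠ 0 := by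
    rintro rfl
    exact hbsq ⟨0, by simp⟩
  refine count hs hm hbsq hbs _ fun a h1 h2 h3 => ?_
  rw [hn]
  clear hn
  induction n with
  | zero =>
    rw [pow_zero, pow_one]
    exact (rank_zero (k := k) hb0 h1 h2 h3).1
  | succ n ih =>
    have e : b₀ ^ 2 ^ (n + 1) = (b₀ ^ 2 ^ n) ^ 2 := by rw [← pow_mul, pow_succ]
    have hb1 : b₀ ^ 2 ^ n ≠ 0 := pow_ne_zero _ hb0
    have h := std_bc (Ω := K) (a := a) (b := b₀ ^ 2 ^ (n + 1)) (pow_ne_zero _ hb0)
    have e2 : algebraMap K K (b₀ ^ 2 ^ (n + 1)) = (algebraMap K K (b₀ ^ 2 ^ n)) ^ 2 := by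
      rw [e, map_pow]
    rw [e2] at h
    exact fin_sq (std_bc (Ω := K) (a := a) (b := b₀ ^ 2 ^ n) hb1) h ih

end aux

/-- **Theorem.** Let `k` be a finite field of characteristic two, `K = k(t)`, and let
`y ^ 2 + x y = x ^ 3 + a₀ x ^ 2 + b` be any elliptic curve over `K` with nonconstant `j = 1 / b`. -/
theorem result (k : Type) [Field k] [Finite k] [CharP k 2] (K : Type) [Field K] [Algebra k[X] K]
    [IsFractionRing k[X] K] (a₀ b : K) (hb : ∀ c : k, b ≠ algebraMap k[X] K (C c))
    (s : Finset k[X]) (hs : ∀ Q ∈ s, Q.Monic ∧ Irreducible Q)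
    (hbs : ∀ v : HeightOneSpectrum k[X], (∀ Q ∈ s, Q ∉ v.asIdeal) → v.valuation K b = 1)
    (ha₀ : ∃ N₀, a₀ ∈ Poles K s N₀) :
    -- the number of parameters
    (∀ N, (Poles K s N).ncard = Nat.card k ^ (N * (1 + (∏ Q ∈ s, Q).natDegree) + 1)) ∧
    0 < proportion s.card ∧
    -- (1)
    (¬ IsSquare b → ∀ c : ℝ, c < proportion s.card → ∀ᶠ N : ℕ in atTop,
      c * ((Poles K s N).ncard : ℝ) ≤
        ({a ∈ Poles K s N | RankZero k (curve (a₀ + a) b)}.ncard : ℝ)) ∧
    -- (2)
    (∀ c : ℝ, c < proportion s.card → ∀ᶠ N : ℕ in atTop,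
      c * ((Poles K s N).ncard : ℝ) ≤
        ({a ∈ Poles K s N | Finite (Pt (curve (a₀ + a) b) K)}.ncard : ℝ)) := by
  haveI : CharP K 2 := Pool.Agent.H467.CT.charK k
  have hs1 : ∀ Q ∈ s, Irreducible Q := fun Q hQ => (hs Q hQ).2
  have hs2 : ∀ Q ∈ s, Q.Monic := fun Q hQ => (hs Q hQ).1
  obtain ⟨N₀, hN₀⟩ := ha₀
  obtain ⟨ρ⟩ := Pool.Agent.H467.CT.Res.res k K
  obtain ⟨τ, hτ⟩ := Pool.Agent.H467.CT.Eqd.tau k
  have hsne : s.card ≠ 0 := by
    intro h0
    rw [Finset.card_eq_zero] at h0
    subst h0
    obtain ⟨c, hc⟩ := Pool.Agent.H467.CT.const_of (b := b) fun v => hbs v (by simp)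
    exact hb c hc
  refine ⟨(Pool.Agent.H467.CT.Eqd.eqd k K ρ τ hτ s hs1 hs2).1, ?_, ?_, ?_⟩
  · unfold proportion
    refine mul_pos (mul_pos ?_ (by positivity)) ?_
    · have : 0 < (s.card + 1).choose 2 := Nat.choose_pos (by omega)
      exact_mod_cast this
    · refine Finset.prod_pos fun i hi => ?_
      rw [sub_pos]
      have : i ≠ 0 := by
        have := (Finset.mem_Ico.1 hi).1
        omega
      exact pow_lt_one₀ (by norm_num) (by norm_num) this
  · intro hbsq c hc
    have hb0 : b ≠ 0 := by
      rintro rfl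
      exact hbsq ⟨0, by simp⟩
    have h := Pool.Agent.H467.CT.count (K := K) hs1 hs2 hbsq hbs
      (fun a => RankZero k (curve a b)) (fun a h1 h2 h3 => rank_zero hb0 h1 h2 h3) c hc
    filter_upwards [h, eventually_ge_atTop N₀] with N h1 h2
    have h3 := shift (mono h2 hN₀) (fun a => RankZero k (curve a b))
    change c * ((Pool.Agent.H467.CT.VN K s N).ncard : ℝ) ≤
      ({a ∈ Pool.Agent.H467.CT.VN K s N | RankZero k (curve (a₀ + a) b)}.ncard : ℝ)
    rw [h3]
    exact h1
  · intro c hc
    obtain ⟨n, b₀, hbsq, hn⟩ := Pool.Agent.H467.CT.dec_pow hb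
    have hbs' : ∀ v : HeightOneSpectrum k[X], Pool.Agent.H467.CT.Out s v →
        v.valuation K b₀ = 1 := by
      intro v hv
      have h1 := hbs v hv
      rw [hn, map_pow] at h1
      exact (pow_eq_one_iff_of_nonneg zero_le' (by positivity)).1 h1
    have h := ge_fin hs1 hs2 hbsq hn hbs' c hc
    filter_upwards [h, eventually_ge_atTop N₀] with N h1 h2
    have h3 := shift (mono h2 hN₀) (fun a => Finite (Pt (curve a b) K))
    change c * ((Pool.Agent.H467.CT.VN K s N).ncard : ℝ) ≤
      ({a ∈ Pool.Agent.H467.CT.VN K s N | Finite (Pt (curve (a₀ + a) b) K)}.ncard : ℝ)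
    rw [h3]
    exact h1

end Pool.Agent.Results.MP_ff7320_nt.TwistsOfEveryCurveCharTwo
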